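import Pool.Agent.U810.NA.Crit
import Pool.Agent.TH2.NU.Final
import Pool.Agent.TH938.Q5
import Pool.Agent.TH641.EN.E
import Pool.Agent.TH760.EN.Asm

/-! Near-uniform vectors at every number `n ≥ 150` of points. -/

namespace Pool.Agent.U810.NA

open Finset Pool.Agent.TH176.Nag Pool.Agent.TH603.Sur Pool.Agent.TH603.Cut Pool.Agent.H932R3
open Pool.Agent.TH760.EN Pool.Agent.TH641.UM Pool.Agent.TH2.NU

/-- from the critical window to all degrees, any number `n ≥ 10` of points -/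
theorem near_of_window' {n m : ℕ} (hn : 10 ≤ n) (hm1 : 1 ≤ m) {w : Fin n → ℕ}
    (hw : ∀ i, w i = m ∨ w i = m + 1)
    (H : (n : ℝ) - 6 * √(n : ℝ) + 10 ≤ m → ∀ d : ℕ,
      -(2 * √(n : ℝ) / 3 + 9 / 4) ≤ √(n : ℝ) * (2 * d + 3) - (n + 2 * (∑ i, (w i : ℝ))) →
      √(n : ℝ) * (2 * d + 3) - (n + 2 * (∑ i, (w i : ℝ))) ≤ 2 * √(n : ℝ) / 3 + 1 / 4 →
      ((d + 2).choose 2 ≤ Pool.Agent.TH603.Sur.cond w → Emp w (TZ d)) ∧
        (Pool.Agent.TH603.Sur.cond w ≤ (d + 2).choose 2 → Sur w (TZ d)))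
    {L : Type} [Field L] [CharZero L] :
    ∃ F : MvPolynomial (Fin n × Fin 2) ℚ, F ≠ 0 ∧ ∀ (P : Fin n → Fin 2 → L),
      MvPolynomial.aeval (fun ij : Fin n × Fin 2 => P ij.1 ij.2) F ≠ 0 →
      ∀ d : ℕ, ExpDim L w P d := by
  rcases le_or_gt (((m + 1 : ℕ) : ℝ)) ((n : ℝ) - 6 * √(n : ℝ) + 11) with hsm | hlg
  · obtain ⟨F, hF, hF'⟩ := near_points (L := L) (n := n) (m := m) hn hm1 (w := w)
      hw (near_cond (by omega) hw (Or.inl hsm))
    exact ⟨F, hF, fun P hP d => hF' P hP d⟩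
  have hmR : (n : ℝ) - 6 * √(n : ℝ) + 10 ≤ m := by push_cast at hlg; linarith
  have hcr := H hmR
  obtain ⟨F1, hF1, h1⟩ := Pool.Agent.TH434.NW.near_win (L := L) hn hm1 hw
  have hnR : (10 : ℝ) ≤ n := by exact_mod_cast hn
  have hs1 : 1 ≤ √(n : ℝ) := Real.one_le_sqrt.2 (by linarith)
  have hs0 : 0 < √(n : ℝ) := by linarith
  have hss : √(n : ℝ) * √(n : ℝ) = n := Real.mul_self_sqrt (by linarith)
  obtain ⟨W, hW⟩ : ∃ W : ℝ, W = ∑ i, (w i : ℝ) := ⟨_, rfl⟩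
  rw [← hW] at hcr h1
  obtain ⟨A, hA⟩ : ∃ A : ℕ → Prop, A = fun d : ℕ =>
    -(2 * √(n : ℝ) / 3 + 9 / 4) ≤ √(n : ℝ) * (2 * d + 3) - (n + 2 * W) ∧
      √(n : ℝ) * (2 * d + 3) - (n + 2 * W) ≤ 2 * √(n : ℝ) / 3 + 1 / 4 := ⟨_, rfl⟩
  have hA' : ∀ d, A d ↔ (-(2 * √(n : ℝ) / 3 + 9 / 4) ≤ √(n : ℝ) * (2 * d + 3) - (n + 2 * W) ∧
      √(n : ℝ) * (2 * d + 3) - (n + 2 * W) ≤ 2 * √(n : ℝ) / 3 + 1 / 4) := by
    intro d; rw [hA]
  obtain ⟨X, hX⟩ : ∃ X : ℝ, X = n + 2 * W + (2 * √(n : ℝ) / 3 + 9 / 4) := ⟨_, rfl⟩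
  obtain ⟨F2, hF2, h2⟩ := expDim_two (w := w)
    (A := fun d => A d ∧ (d + 2).choose 2 ≤ Pool.Agent.TH603.Sur.cond w)
    (B := fun d => A d ∧ Pool.Agent.TH603.Sur.cond w ≤ (d + 2).choose 2)
    ⌈X⌉₊ (fun d hd => by
      have h3 := ((hA' d).1 hd.1).2
      have h4 := Nat.le_ceil X
      have h5 : (0 : ℝ) ≤ d := Nat.cast_nonneg d
      have h6 : (d : ℝ) ≤ √(n : ℝ) * (2 * d + 3) := by nlinarith
      have h7 : (d : ℝ) ≤ (⌈X⌉₊ : ℝ) := by linarith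
      exact_mod_cast h7)
    (fun d hd => (hcr d ((hA' d).1 hd.1).1 ((hA' d).1 hd.1).2).1 hd.2)
    (fun d hd => (hcr d ((hA' d).1 hd.1).1 ((hA' d).1 hd.1).2).2 hd.2)
  refine ⟨F1 * F2, mul_ne_zero hF1 hF2, fun P hP d => ?_⟩
  rw [map_mul] at hP
  by_cases h : A d
  · refine h2 P (right_ne_zero_of_mul hP) d ?_
    rcases le_total ((d + 2).choose 2) (Pool.Agent.TH603.Sur.cond w) with h3 | h3
    · exact Or.inl ⟨h, h3⟩
    · exact Or.inr ⟨h, h3⟩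
  · refine h1 P (left_ne_zero_of_mul hP) d ?_
    have e1 : ∀ a : ℝ, √(n : ℝ) * (2 / 3 + a / (4 * √(n : ℝ))) = 2 / 3 * √(n : ℝ) + a / 4 := by
      intro a
      field_simp
    have e2 : √(n : ℝ) * (√(n : ℝ) + 2 * W / √(n : ℝ)) = n + 2 * W := by
      rw [mul_add, hss]
      congr 1
      field_simp
    rw [hA', not_and_or, not_le, not_le] at h
    rcases h with h3 | h3
    · left
      refine lt_of_le_of_lt (min_le_right _ _) ?_
      refine lt_of_mul_lt_mul_left ?_ hs0.le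
      rw [e1, mul_sub, e2]
      linarith
    · right
      refine lt_of_le_of_lt (min_le_right _ _) ?_
      refine lt_of_mul_lt_mul_left ?_ hs0.le
      rw [e1, mul_sub, e2]
      linarith

/-- the numbers of the clusters and of the small points -/
theorem exists_Nc {n : ℕ} (hn : 5 ≤ n) : ∃ N c : ℕ, n = 4 * N + c ∧ (c = 0 ∨ c = 2 ∨ c = 3 ∨ c = 5) ∧
    HE c ∧ HS c := by
  have h3 : HE 3 := Pool.Agent.TH641.EN.HE_three
  rcases (by omega : n % 4 = 0 ∨ n % 4 = 1 ∨ n % 4 = 2 ∨ n % 4 = 3) with h | h | h | h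
  · exact ⟨n / 4, 0, by omega, by omega, he0, hs0⟩
  · exact ⟨(n - 5) / 4, 5, by omega, by omega, Pool.Agent.TH938.Q5.he5 he2 h3,
      Pool.Agent.TH938.Q5.hs5 he2 h3⟩
  · exact ⟨n / 4, 2, by omega, by omega, he2, hs2⟩
  · exact ⟨n / 4, 3, by omega, by omega, h3, hs3_of h3⟩

/-- the two parameters -/
theorem exists_kt {n N c : ℕ} (hn : n = 4 * N + c) (hc : c ≤ 5) (h : 150 ≤ n) (hN : 37 ≤ N) :
    ∃ κ τ : ℕ, 2 * √(n : ℝ) / 3 + 14.6 ≤ 2 * κ ∧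
      5 + (2 * √(n : ℝ) / 3 + 9 / 4) ≤ 2 * κ ∧
      2 * √(n : ℝ) / 3 + 3 + (2 * √(n : ℝ) / 3 + 9 / 4) < 2 * (τ + 1) ∧
      2 * √(n : ℝ) / 3 + 10 + (2 * √(n : ℝ) / 3 + 1 / 4) < 2 * (τ + 1) ∧
      2 * κ + τ ≤ N := by
  have hnR : (n : ℝ) = 4 * N + c := by rw [hn]; push_cast; ring
  have h150 : (150 : ℝ) ≤ n := by exact_mod_cast h
  have hss : √(n : ℝ) * √(n : ℝ) = n := Real.mul_self_sqrt (by linarith)
  have hc5 : (c : ℝ) ≤ 5 := by exact_mod_cast hc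
  rcases le_or_gt n 164 with h1 | h1
  · have hs : √(n : ℝ) ≤ 12.81 := by
      apply Real.sqrt_le_iff.2
      have : (n : ℝ) ≤ 164 := by exact_mod_cast h1
      constructor
      · norm_num
      · norm_num
        linarith
    refine ⟨12, 13, ?_, ?_, ?_, ?_, by omega⟩ <;> push_cast <;> linarith
  · have hs : 12.84 ≤ √(n : ℝ) := by
      apply Real.le_sqrt_of_sq_le
      have : (165 : ℝ) ≤ n := by exact_mod_cast h1
      norm_num
      linarith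
    obtain ⟨s, hsdef⟩ : ∃ s, s = √(n : ℝ) := ⟨_, rfl⟩
    rw [← hsdef] at hs hss ⊢
    obtain ⟨κ, hκ⟩ : ∃ κ : ℕ, κ = ⌈s / 3 + 7.3⌉₊ := ⟨_, rfl⟩
    have hκ1 : s / 3 + 7.3 ≤ κ := by rw [hκ]; exact Nat.le_ceil _
    have hκ2 : (κ : ℝ) < s / 3 + 7.3 + 1 := by rw [hκ]; exact Nat.ceil_lt_add_one (by positivity)
    obtain ⟨τ, hτ⟩ : ∃ τ : ℕ, τ = ⌊2 * s / 3 + 5.125⌋₊ := ⟨_, rfl⟩
    have hτ1 : (τ : ℝ) ≤ 2 * s / 3 + 5.125 := by rw [hτ]; exact Nat.floor_le (by positivity)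
    have hτ2 : 2 * s / 3 + 5.125 < (τ : ℝ) + 1 := by rw [hτ]; exact Nat.lt_floor_add_one _
    refine ⟨κ, τ, by linarith, by linarith, by linarith, by linarith, ?_⟩
    have h2 : 2 * (κ : ℝ) + τ ≤ N := by nlinarith
    exact_mod_cast h2

theorem sum_prod_val' {a : ℕ} (v : Fin 2 × Fin 2 → ℕ) :
    ∑ p : Fin a × (Fin 2 × Fin 2), v p.2 = a * ∑ p, v p := by
  rw [Fintype.sum_prod_type]
  simp

/-- the multiset of a vector with values `m`, `m + 1` -/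
theorem ms_V' {n N c m b μ x0 x1 x2 : ℕ} {w : Fin n → ℕ} (hw : ∀ i, w i = m ∨ w i = m + 1)
    (hn : n = 4 * N + c) (hb : b = 2 * m ∨ b = 2 * m + 1) (hμ : μ = m ∨ μ = m + 1)
    (hx : x0 + x1 + x2 = N) (hW : ∑ i, w i + x0 = N * (2 * b + 1) + x2 + c * μ) :
    ms w = x0 • q4 b + (x1 • r4 (b + 1) + (x2 • q4 (b + 1) + (0 + c • {μ}))) := by
  have e : ms (Sum.elim (fun p : Fin x0 × (Fin 2 × Fin 2) => qv b p.2)
      (Sum.elim (fun p : Fin x1 × (Fin 2 × Fin 2) => rv (b + 1) p.2)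
        (Sum.elim (fun p : Fin x2 × (Fin 2 × Fin 2) => qv (b + 1) p.2) (fun _ : Fin c => μ)))) =
      x0 • q4 b + (x1 • r4 (b + 1) + (x2 • q4 (b + 1) + (0 + c • {μ}))) := by
    rw [ms_sum, ms_sum, ms_sum, ms_prod, ms_prod, ms_prod, ms_fin, zero_add]
    rfl
  rw [← e]
  refine ms_eq hw ?_ ?_ ?_
  · rintro (⟨-, ⟨a, c⟩⟩ | ⟨-, ⟨a, c⟩⟩ | ⟨-, ⟨a, c⟩⟩ | i)
    · simp only [Sum.elim_inl, qv]
      have := a.2
      omega
    · simp only [Sum.elim_inl, Sum.elim_inr, rv]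
      have := a.2
      have := c.2
      omega
    · simp only [Sum.elim_inl, Sum.elim_inr, qv]
      have := a.2
      omega
    · simp only [Sum.elim_inr]
      exact hμ
  · rw [Fintype.card_sum, Fintype.card_sum, Fintype.card_sum]
    simp only [Fintype.card_prod, Fintype.card_fin]
    omega
  · rw [Fintype.sum_sum_type, Fintype.sum_sum_type, Fintype.sum_sum_type]
    simp only [Sum.elim_inl, Sum.elim_inr]
    rw [sum_prod_val', sum_prod_val', sum_prod_val', sum_qv_val, sum_rv_val, sum_qv_val]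
    simp only [sum_const, card_univ, Fintype.card_fin, smul_eq_mul]
    have h1 : x0 * (2 * b) + (x1 * (2 * b + 1) + (x2 * (2 * (b + 1)) + c * μ)) + x0 =
        N * (2 * b + 1) + x2 + c * μ := by
      rw [← hx]
      ring
    omega

/-- **the critical degrees** -/
theorem crit_all {n m : ℕ} (hn : 150 ≤ n) {w : Fin n → ℕ} (hw : ∀ i, w i = m ∨ w i = m + 1)
    (hm : (n : ℝ) - 6 * √(n : ℝ) + 10 ≤ m) {d : ℕ}
    (hc1 : -(2 * √(n : ℝ) / 3 + 9 / 4) ≤ √(n : ℝ) * (2 * d + 3) - (n + 2 * (∑ i, (w i : ℝ))))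
    (hc2 : √(n : ℝ) * (2 * d + 3) - (n + 2 * (∑ i, (w i : ℝ))) ≤ 2 * √(n : ℝ) / 3 + 1 / 4) :
    ((d + 2).choose 2 ≤ Pool.Agent.TH603.Sur.cond w → Emp w (TZ d)) ∧
      (Pool.Agent.TH603.Sur.cond w ≤ (d + 2).choose 2 → Sur w (TZ d)) := by
  obtain ⟨N, c, hNc, hc, hE, hS⟩ := exists_Nc (n := n) (by omega)
  have hN37 : 37 ≤ N := by omega
  have hc5 : c ≤ 5 := by omega
  obtain ⟨κ, τ, k1, k2, t1, t2, hroom⟩ := exists_kt hNc hc5 hn hN37
  have hnR : (n : ℝ) = 4 * N + c := by rw [hNc]; push_cast; ring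
  have h150 : (150 : ℝ) ≤ n := by exact_mod_cast hn
  have hs0 := Real.sqrt_nonneg (n : ℝ)
  have hss : √(n : ℝ) * √(n : ℝ) = n := Real.mul_self_sqrt (by linarith)
  have hs12 : 12 ≤ √(n : ℝ) := Real.le_sqrt_of_sq_le (by norm_num; linarith)
  have h2m : n ≤ 2 * m + 1 := by
    have : (n : ℝ) ≤ 2 * m + 1 := by nlinarith
    exact_mod_cast this
  -- the sum
  have hlow : n * m ≤ ∑ i, w i := by
    have h1 : ∑ _i : Fin n, m ≤ ∑ i, w i := sum_le_sum fun i _ => by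
      rcases hw i with h | h <;> omega
    simpa using h1
  have hup : ∑ i, w i ≤ n * m + n := by
    have h1 : ∑ i, w i ≤ ∑ _i : Fin n, (m + 1) := sum_le_sum fun i _ => by
      rcases hw i with h | h <;> omega
    simp only [sum_const, card_univ, Fintype.card_fin, smul_eq_mul] at h1
    linarith
  obtain ⟨e, he⟩ := Nat.exists_eq_add_of_le hlow
  have hen : e ≤ n := by omega
  obtain ⟨b, μ, δ, hb, hμ, hb1, hb2, hδ, hsum⟩ : ∃ (b μ : ℕ) (δ : ℤ), (b = 2 * m ∨ b = 2 * m + 1) ∧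
      (μ = m ∨ μ = m + 1) ∧ b ≤ 2 * μ + 1 ∧ 2 * μ ≤ b + 1 ∧ |δ| ≤ N ∧
      ((∑ i, w i : ℕ) : ℤ) = N * (2 * b + 1) + δ + c * μ := by
    rcases le_or_gt e (2 * N) with h1 | h1
    · refine ⟨2 * m, m, (e : ℤ) - N, Or.inl rfl, Or.inl rfl, by omega, by omega,
        abs_le.2 (by omega), ?_⟩
      rw [he, hNc]
      push_cast
      ring
    rcases le_or_gt e (4 * N) with h2 | h2
    · refine ⟨2 * m + 1, m, (e : ℤ) - 3 * N, Or.inr rfl, Or.inl rfl, by omega, by omega,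
        abs_le.2 (by omega), ?_⟩
      rw [he, hNc]
      push_cast
      ring
    · refine ⟨2 * m + 1, m + 1, (e : ℤ) - 3 * N - c, Or.inr rfl, Or.inr rfl, by omega, by omega,
        abs_le.2 (by omega), ?_⟩
      rw [he, hNc]
      push_cast
      ring
  have hsm : Small N c μ b n := ⟨hNc, hc, by omega, hE, hS, by omega, hb1, hb2⟩
  have hsumR : (∑ i, (w i : ℝ)) = N * (2 * b + 1) + δ + c * μ := by
    have h1 : (((∑ i, w i : ℕ) : ℤ) : ℝ) = ((N * (2 * b + 1) + δ + c * μ : ℤ) : ℝ) := by rw [hsum]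
    push_cast at h1
    exact h1
  obtain ⟨y, hy⟩ : ∃ y : ℝ, y = √(n : ℝ) * (2 * d + 3) -
    (4 * N * ((b + 1 : ℕ) : ℝ) + 2 * N + 2 * c * μ + c) := ⟨_, rfl⟩
  have hy' : √(n : ℝ) * (2 * d + 3) - (n + 2 * (∑ i, (w i : ℝ))) = y - 2 * δ := by
    rw [hy, hsumR, hnR]
    push_cast
    ring
  rw [hy'] at hc1 hc2
  have hκτ : (2 * (κ : ℝ) + τ) ≤ N := by exact_mod_cast hroom
  have hτ0 : (0 : ℝ) ≤ τ := Nat.cast_nonneg τ
  obtain ⟨x0, x1, x2, hx, hx', hsg⟩ := sgn_all hsm (Rest.zero N b) (d := d) (κ := κ) (τ := τ)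
    (δ := δ) (y := y) (L1 := 2 * √(n : ℝ) / 3 + 9 / 4) (L2 := 2 * √(n : ℝ) / 3 + 1 / 4)
    (by omega) hy (by linarith) (by linarith) (by positivity) (by positivity)
    (by simp only [Nat.cast_zero, mul_zero, zero_div]; linarith)
    (by simp only [Nat.cast_zero, mul_zero]; linarith)
    (by simp only [Nat.cast_zero, mul_zero, zero_div]; linarith) (by linarith) t1
    (by simp only [Nat.cast_zero, mul_zero]; linarith) (by omega)
    (by linarith) (by linarith)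
  refine Sgn_of_ms (ms_V' hw hNc hb hμ (by omega) ?_) hsg
  zify
  zify at hsum
  linarith

/-- **Every degree** at `n ≥ 150` points of multiplicities `m`, `m + 1`. -/
theorem near_all {n m : ℕ} (hn : 150 ≤ n) (hm1 : 1 ≤ m) {w : Fin n → ℕ}
    (hw : ∀ i, w i = m ∨ w i = m + 1) {L : Type} [Field L] [CharZero L] :
    ∃ F : MvPolynomial (Fin n × Fin 2) ℚ, F ≠ 0 ∧ ∀ (P : Fin n → Fin 2 → L),
      MvPolynomial.aeval (fun ij : Fin n × Fin 2 => P ij.1 ij.2) F ≠ 0 →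
      ∀ d : ℕ, ExpDim L w P d :=
  near_of_window' (by omega) hm1 hw fun hm _ h1 h2 => crit_all hn hw hm h1 h2

end Pool.Agent.U810.NA
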