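import Pool.Agent.U810.NA.Win
import Pool.Agent.U810.NA.Mid
import Pool.Agent.TH2.NU.Near4

/-! The sign theorem for `N` clusters, `c` small points and a rest. -/

namespace Pool.Agent.U810.NA

open Finset Pool.Agent.TH176.Nag Pool.Agent.TH603.Sur Pool.Agent.TH603.Cut
open Pool.Agent.TH760.EN Pool.Agent.TH641.UM Pool.Agent.TH2.NU

/-- the small points -/
structure Small (N c μ b n : ℕ) : Prop where
  hn : n = 4 * N + c
  hc : c = 0 ∨ c = 2 ∨ c = 3 ∨ c = 5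
  hN : 36 ≤ N
  hE : HE c
  hS : HS c
  hb : 4 * N ≤ b + 1
  hb1 : b ≤ 2 * μ + 1
  hb2 : 2 * μ ≤ b + 1

/-- the rest: `k` clusters `M` which behave like the points `P` -/
structure Rest (N b k : ℕ) (M P : Multiset ℕ) (D Q : ℕ) : Prop where
  card : P.card = k
  sum : P.sum + D = k * (b + 1)
  cnd : 2 * Pool.Agent.TH2.NU.condM M + Q = k * ((b + 1) * (b + 2))
  hD : D ≤ N
  E : ∀ (M' : Multiset ℕ) (d : ℕ), EmpM (P + M') (TZ d) → EmpM (M + M') (TZ d)
  S : ∀ (M' : Multiset ℕ) (d : ℕ), SurM (k • {b + 1} + M') (TZ d) → SurM (M + M') (TZ d)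

theorem Rest.zero (N b : ℕ) : Rest N b 0 0 0 0 0 where
  card := by simp
  sum := by simp
  cnd := by simp [Pool.Agent.TH2.NU.condM]
  hD := Nat.zero_le _
  E := fun M' d h => h
  S := fun M' d h => by rwa [zero_smul] at h

theorem EmpP {N c μ b n k D Q : ℕ} {M P : Multiset ℕ} (h : Small N c μ b n)
    (R : Rest N b k M P D Q) {p q r d : ℕ} (hp : p + q + r + k = N)
    (hwin : √(n : ℝ) * (2 * d + 3) + 2 * √(n : ℝ) / 3 + 10 <
      (4 * N * ((b + 1 : ℕ) : ℝ) + 2 * N + 2 * c * μ + c) + 4 * r - 4 * p - 4 * D) :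
    EmpM (M + (p • {b} + (q • {b + 1} + r • {b + 2}) + c • {μ})) (TZ d) := by
  apply R.E
  have e : P + (p • ({b} : Multiset ℕ) + (q • {b + 1} + r • {b + 2}) + c • {μ}) =
      (P + (p • ({b} : Multiset ℕ) + (q • {b + 1} + r • {b + 2}))) + c • {μ} := by abel
  rw [e]
  have hs : (P + (p • ({b} : Multiset ℕ) + (q • {b + 1} + r • {b + 2}))).sum =
      P.sum + (p * b + (q * (b + 1) + r * (b + 2))) := by
    simp [Multiset.sum_add, Multiset.sum_nsmul]
  have h1 := R.sum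
  have h2 := R.hD
  have h3 := h.hb
  have h4 := h.hN
  have hsum : (P + (p • ({b} : Multiset ℕ) + (q • {b + 1} + r • {b + 2}))).sum + p + D =
      N * (b + 1) + r := by
    rw [hs, ← hp]
    have : (p + q + r + k) * (b + 1) + r = p * b + p + (q * (b + 1) + (r * (b + 1) + r)) +
      k * (b + 1) := by ring
    rw [this, ← h1]
    ring
  have hpN : p ≤ N := by omega
  refine EmpWM (N := N) ?_ h.hn h.hc h.hN h.hE ?_ ?_
  · simp only [Multiset.card_add, Multiset.card_nsmul, Multiset.card_singleton, R.card]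
    omega
  · have h5 : N * (N + 10) + N + N ≤ N * (b + 1) := by
      have h6 : N * (4 * N) ≤ N * (b + 1) := Nat.mul_le_mul_left N h3
      have h7 : N * 36 ≤ N * N := Nat.mul_le_mul_left N h4
      nlinarith
    omega
  · have h5 : ((P + (p • ({b} : Multiset ℕ) + (q • {b + 1} + r • {b + 2}))).sum : ℝ) + p + D =
        N * ((b + 1 : ℕ) : ℝ) + r := by exact_mod_cast hsum
    linarith

theorem SurP {N c μ b n k D Q : ℕ} {M P : Multiset ℕ} (h : Small N c μ b n)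
    (R : Rest N b k M P D Q) {p q d : ℕ} (hp : p + q + k = N)
    (hwin : (4 * N * ((b + 1 : ℕ) : ℝ) + 2 * N + 2 * c * μ + c) - 4 * p + 2 * √(n : ℝ) / 3 + 3 <
      √(n : ℝ) * (2 * d + 3)) :
    SurM (M + (p • {b} + q • {b + 1} + c • {μ})) (TZ d) := by
  apply R.S
  have e : k • ({b + 1} : Multiset ℕ) + (p • ({b} : Multiset ℕ) + q • {b + 1} + c • {μ}) =
      (p • ({b} : Multiset ℕ) + (k + q) • {b + 1}) + c • {μ} := by
    rw [add_smul]
    abel
  rw [e]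
  have hs : (p • ({b} : Multiset ℕ) + (k + q) • {b + 1}).sum = p * b + (k + q) * (b + 1) := by
    simp [Multiset.sum_add, Multiset.sum_nsmul]
  have hsum : (p • ({b} : Multiset ℕ) + (k + q) • {b + 1}).sum + p = N * (b + 1) := by
    rw [hs, ← hp]
    ring
  have hc : c ≤ 5 := by
    rcases h.hc with h1 | h1 | h1 | h1 <;> omega
  refine SurWM (N := N) (b := b) ?_ h.hn hc h.hN h.hS ?_ h.hb1 h.hb2 ?_
  · simp only [Multiset.card_add, Multiset.card_nsmul, Multiset.card_singleton]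
    omega
  · intro v hv
    rw [Multiset.mem_add] at hv
    rcases hv with hv | hv
    · exact Or.inl (Multiset.mem_singleton.1 (Multiset.mem_of_mem_nsmul hv))
    · exact Or.inr (Multiset.mem_singleton.1 (Multiset.mem_of_mem_nsmul hv))
  · have h5 : ((p • ({b} : Multiset ℕ) + (k + q) • {b + 1}).sum : ℝ) + p =
        N * ((b + 1 : ℕ) : ℝ) := by exact_mod_cast hsum
    linarith

/-- the inner step -/
theorem inner {N c μ b n k D Q : ℕ} {M P : Multiset ℕ} (h : Small N c μ b n)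
    (R : Rest N b k M P D Q) {d x0 x1 x2 p : ℕ} (hx : x0 + x1 + x2 + k = N) (h2 : 0 < x2)
    (hp : p ≤ x0)
    (hS : (4 * N * ((b + 1 : ℕ) : ℝ) + 2 * N + 2 * c * μ + c) - 4 * p + 2 * √(n : ℝ) / 3 + 3 <
      √(n : ℝ) * (2 * d + 3))
    (hE : √(n : ℝ) * (2 * d + 3) + 2 * √(n : ℝ) / 3 + 10 <
      (4 * N * ((b + 1 : ℕ) : ℝ) + 2 * N + 2 * c * μ + c) + 4 * x2 - 4 * p - 4 * D) :
    Sgn (x2 • q4 (b + 1) + (p • {b} + ((x0 - p) • {b + 1} + (x1 • r4 (b + 1) +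
      (M + c • {μ}))))) d := by
  have hb : 1 ≤ b := by
    have := h.hb
    have := h.hN
    omega
  refine Sgn_dbl h2 ?_ ?_
  · have h1 := SurP h R (d := d) (p := p) (q := x1 + x2 + (x0 - p)) (by omega) hS
    have e : x2 • ({b + 1} : Multiset ℕ) + (p • {b} + ((x0 - p) • {b + 1} + (x1 • r4 (b + 1) +
        (M + c • {μ})))) =
        x1 • r4 (b + 1) + (M + (p • {b} + (x2 + (x0 - p)) • {b + 1} + c • {μ})) := by
      rw [add_smul]
      abel
    rw [e]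
    refine exMS (by omega) ?_
    have e2 : x1 • ({b + 1} : Multiset ℕ) + (M + (p • {b} + (x2 + (x0 - p)) • {b + 1} + c • {μ})) =
        M + (p • {b} + (x1 + x2 + (x0 - p)) • {b + 1} + c • {μ}) := by
      rw [add_smul, add_smul, add_smul]
      abel
    rw [e2]
    exact h1
  · have h1 := EmpP h R (d := d) (p := p) (q := x0 - p + x1) (r := x2) (by omega) hE
    have e : x2 • ({b + 1 + 1} : Multiset ℕ) + (p • {b} + ((x0 - p) • {b + 1} + (x1 • r4 (b + 1) +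
        (M + c • {μ})))) =
        x1 • r4 (b + 1) + (M + (p • {b} + ((x0 - p) • {b + 1} + x2 • {b + 2}) + c • {μ})) := by
      abel
    rw [e]
    refine exM' (by omega) ?_
    have e2 : x1 • ({b + 1} : Multiset ℕ) + (M + (p • {b} + ((x0 - p) • {b + 1} + x2 • {b + 2}) +
        c • {μ})) = M + (p • {b} + ((x0 - p + x1) • {b + 1} + x2 • {b + 2}) + c • {μ}) := by
      rw [add_smul]
      abel
    rw [e2]
    exact h1

/-- case A -/
theorem caseA {N c μ b n k D Q : ℕ} {M P : Multiset ℕ} (h : Small N c μ b n)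
    (R : Rest N b k M P D Q) {d x0 x1 : ℕ} (hx : x0 + x1 + k = N) (h0 : 0 < x0)
    (hS : (4 * N * ((b + 1 : ℕ) : ℝ) + 2 * N + 2 * c * μ + c) - 4 * x0 + 2 * √(n : ℝ) / 3 + 3 <
      √(n : ℝ) * (2 * d + 3))
    (hE : √(n : ℝ) * (2 * d + 3) + 2 * √(n : ℝ) / 3 + 10 <
      (4 * N * ((b + 1 : ℕ) : ℝ) + 2 * N + 2 * c * μ + c) - 4 * D) :
    Sgn (x0 • q4 b + (x1 • r4 (b + 1) + (M + c • {μ}))) d := by
  have hb : 1 ≤ b := by
    have := h.hb
    have := h.hN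
    omega
  refine Sgn_dbl h0 ?_ ?_
  · have h1 := SurP h R (d := d) (p := x0) (q := x1) hx hS
    have e : x0 • ({b} : Multiset ℕ) + (x1 • r4 (b + 1) + (M + c • {μ})) =
        x1 • r4 (b + 1) + (M + (x0 • {b} + c • {μ})) := by abel
    rw [e]
    refine exMS (by omega) ?_
    have e2 : x1 • ({b + 1} : Multiset ℕ) + (M + (x0 • {b} + c • {μ})) =
        M + (x0 • {b} + x1 • {b + 1} + c • {μ}) := by abel
    rw [e2]
    exact h1
  · have h1 := EmpP h R (d := d) (p := 0) (q := x0 + x1) (r := 0) (by omega) (by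
      push_cast at hE ⊢
      linarith)
    have e : x0 • ({b + 1} : Multiset ℕ) + (x1 • r4 (b + 1) + (M + c • {μ})) =
        x1 • r4 (b + 1) + (M + (x0 • {b + 1} + c • {μ})) := by abel
    rw [e]
    refine exM' (by omega) ?_
    have e2 : x1 • ({b + 1} : Multiset ℕ) + (M + (x0 • {b + 1} + c • {μ})) =
        M + (0 • {b} + ((x0 + x1) • {b + 1} + 0 • {b + 2}) + c • {μ}) := by
      rw [add_smul, zero_smul, zero_smul, zero_add, add_zero]
      abel
    rw [e2]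
    exact h1

/-- case B -/
theorem caseB {N c μ b n k D Q : ℕ} {M P : Multiset ℕ} (h : Small N c μ b n)
    (R : Rest N b k M P D Q) {d x1 x2 : ℕ} (hx : x1 + x2 + k = N) (h0 : 0 < x2)
    (hS : (4 * N * ((b + 1 : ℕ) : ℝ) + 2 * N + 2 * c * μ + c) + 2 * √(n : ℝ) / 3 + 3 <
      √(n : ℝ) * (2 * d + 3))
    (hE : √(n : ℝ) * (2 * d + 3) + 2 * √(n : ℝ) / 3 + 10 <
      (4 * N * ((b + 1 : ℕ) : ℝ) + 2 * N + 2 * c * μ + c) + 4 * x2 - 4 * D) :
    Sgn (x1 • r4 (b + 1) + (x2 • q4 (b + 1) + (M + c • {μ}))) d := by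
  have h1 := inner h R (d := d) (x0 := 0) (x1 := x1) (x2 := x2) (p := 0) (by omega) h0 le_rfl (by
    push_cast at hS ⊢
    linarith) (by
    push_cast at hE ⊢
    linarith)
  have e : x2 • q4 (b + 1) + (0 • {b} + ((0 - 0) • {b + 1} + (x1 • r4 (b + 1) +
      (M + c • {μ})))) = x1 • r4 (b + 1) + (x2 • q4 (b + 1) + (M + c • {μ})) := by
    rw [Nat.sub_zero, zero_smul, zero_smul, zero_add, zero_add]
    abel
  rw [e] at h1
  exact h1

/-- case C -/
theorem caseC {N c μ b n k D Q : ℕ} {M P : Multiset ℕ} (h : Small N c μ b n)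
    (R : Rest N b k M P D Q) {d x0 x1 x2 : ℕ} (hx : x0 + x1 + x2 + k = N) {y : ℝ}
    (hy : y = √(n : ℝ) * (2 * d + 3) - (4 * N * ((b + 1 : ℕ) : ℝ) + 2 * N + 2 * c * μ + c))
    (hG1 : (c : ℝ) ≤ 2 * N + y + n) (hG2 : 2 * N + c + y ≤ n)
    (h1 : 2 * √(n : ℝ) / 3 + 7.6 + 2 * Q / ((b + 1 : ℕ) : ℝ) ≤ 2 * x2)
    (h2 : 2 * √(n : ℝ) / 3 + 14.6 + 4 * D ≤ 2 * x2)
    (h3 : 1 ≤ 2 * x2 - y - 2 * Q / ((b + 1 : ℕ) : ℝ))
    (h4 : 2 * x2 - y + 5 ≤ 4 * x0) :
    Sgn (x0 • q4 b + (x1 • r4 (b + 1) + (x2 • q4 (b + 1) + (M + c • {μ})))) d := by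
  have hbN := h.hb
  have hNN := h.hN
  have hb0 : 1 ≤ b := by omega
  have hc5 : c ≤ 5 := by
    rcases h.hc with h1 | h1 | h1 | h1 <;> omega
  have hs0 := Real.sqrt_nonneg (n : ℝ)
  have hD0 : (0 : ℝ) ≤ D := Nat.cast_nonneg D
  have hQB : (0 : ℝ) ≤ 2 * Q / ((b + 1 : ℕ) : ℝ) := by positivity
  have hx2' : 0 < x2 := by
    have : (0 : ℝ) < x2 := by linarith
    exact_mod_cast this
  have hx0' : 0 < x0 := by
    have : (0 : ℝ) < x0 := by linarith
    exact_mod_cast this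
  obtain ⟨z, hz⟩ : ∃ z : ℝ, z = 2 * x2 - y - 2 * Q / ((b + 1 : ℕ) : ℝ) := ⟨_, rfl⟩
  obtain ⟨p, hp, c1, c2, c3, c4⟩ := mid (B := b + 1) (μ := μ) (Q := Q) (x0 := x0) (x2 := x2)
    h.hn hc5 h.hN hbN (by have := h.hb1; omega) (by have := h.hb2; omega)
    (by omega) hy hG1 hG2 hz (by rw [hz]; exact h3) (by rw [hz]; linarith)
  have i1 := inner h R (d := d) (p := p) hx hx2' (by omega) (by linarith) (by linarith)
  have i2 := inner h R (d := d) (p := p + 1) hx hx2' hp (by push_cast at hy ⊢; linarith)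
    (by push_cast at hy ⊢; linarith)
  -- the conditions
  have hcond : ∀ p, p ≤ x0 → 2 * Pool.Agent.TH2.NU.condM (x2 • q4 (b + 1) + (p • {b} + ((x0 - p) • {b + 1} +
      (x1 • r4 (b + 1) + (M + c • {μ}))))) + 2 * (p * (b + 1)) + Q =
      2 * ((b + 1 + 1) / 2 * x2) + N * ((b + 1) * (b + 1 + 1)) + c * (μ * (μ + 1)) := by
    intro p hp
    obtain ⟨t, rfl⟩ := Nat.exists_eq_add_of_le hp
    rw [condM_add, condM_add, condM_add, condM_add, condM_add, condM_smul, condM_smul, condM_smul,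
      condM_smul, condM_smul, condM_q4, condM_r4 (by omega), condM_single, condM_single,
      condM_single, ← hx, Nat.add_sub_cancel_left]
    have e1 := two_choose b
    have e2 := two_choose (b + 1)
    have e3 := two_choose μ
    have e4 := R.cnd
    obtain ⟨h, hh⟩ : ∃ h, h = (b + 1 + 1) / 2 := ⟨_, rfl⟩
    rw [← hh]
    have e5 : 2 * (x2 * ((b + 1 + 1).choose 2 + h) + (p * (b + 1).choose 2 + (t * (b + 1 + 1).choose 2 +
        (x1 * (b + 1 + 1).choose 2 + (Pool.Agent.TH2.NU.condM M + c * (μ + 1).choose 2))))) =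
        x2 * (2 * (b + 1 + 1).choose 2) + 2 * (h * x2) +
        p * (2 * (b + 1).choose 2) + t * (2 * (b + 1 + 1).choose 2) +
        x1 * (2 * (b + 1 + 1).choose 2) + 2 * Pool.Agent.TH2.NU.condM M + c * (2 * (μ + 1).choose 2) := by
      ring
    rw [e5, e1, e2, e3]
    have e6 : (p + t + x1 + x2 + k) * ((b + 1) * (b + 1 + 1)) =
        (p + t + x1 + x2) * ((b + 1) * (b + 1 + 1)) + k * ((b + 1) * (b + 2)) := by ring
    rw [e6, ← e4]
    ring
  have hk1 := hcond p (by omega)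
  have hk2 := hcond (p + 1) hp
  have hd := two_choose' d
  have s1 := i1.1 (by omega)
  have s2 := i2.2 (by omega)
  refine Sgn_dbl hx0' ?_ ?_
  · have e1 : x2 • q4 (b + 1) + ((p + 1) • {b} + ((x0 - (p + 1)) • {b + 1} + (x1 • r4 (b + 1) +
        (M + c • {μ})))) =
        (x0 - (p + 1)) • {b + 1} + (x2 • q4 (b + 1) + (p + 1) • {b} + (x1 • r4 (b + 1) +
        (M + c • {μ}))) := by abel
    rw [e1] at s2
    have s3 := s2.lower (Nat.le_succ b)
    have e2 : (x0 - (p + 1)) • ({b} : Multiset ℕ) + (x2 • q4 (b + 1) + (p + 1) • {b} +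
        (x1 • r4 (b + 1) + (M + c • {μ}))) =
        x0 • {b} + (x1 • r4 (b + 1) + (x2 • q4 (b + 1) + (M + c • {μ}))) := by
      have e3 : x0 • ({b} : Multiset ℕ) = (x0 - (p + 1)) • {b} + (p + 1) • {b} := by
        rw [← add_smul, Nat.sub_add_cancel hp]
      rw [e3]
      abel
    rw [e2] at s3
    exact s3
  · have e1 : x2 • q4 (b + 1) + (p • {b} + ((x0 - p) • {b + 1} + (x1 • r4 (b + 1) +
        (M + c • {μ})))) =
        p • {b} + (x2 • q4 (b + 1) + (x0 - p) • {b + 1} + (x1 • r4 (b + 1) + (M + c • {μ}))) := by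
      abel
    rw [e1] at s1
    have s3 := Pool.Agent.TH2.NU.EmpM.raise (Nat.le_succ b) s1
    have e2 : p • ({b + 1} : Multiset ℕ) + (x2 • q4 (b + 1) + (x0 - p) • {b + 1} +
        (x1 • r4 (b + 1) + (M + c • {μ}))) =
        x0 • {b + 1} + (x1 • r4 (b + 1) + (x2 • q4 (b + 1) + (M + c • {μ}))) := by
      have e3 : x0 • ({b + 1} : Multiset ℕ) = (x0 - p) • {b + 1} + p • {b + 1} := by
        rw [← add_smul, Nat.sub_add_cancel (by omega)]
      rw [e3]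
      abel
    rw [e2] at s3
    exact s3

/-- all cases together -/
theorem sgn_all {N c μ b n k D Q : ℕ} {M P : Multiset ℕ} (h : Small N c μ b n)
    (R : Rest N b k M P D Q) {d κ τ : ℕ} {δ : ℤ} {y L1 L2 : ℝ} (hδ : |δ| + k ≤ N)
    (hy : y = √(n : ℝ) * (2 * d + 3) - (4 * N * ((b + 1 : ℕ) : ℝ) + 2 * N + 2 * c * μ + c))
    (hy1 : 2 * (δ : ℝ) - L1 ≤ y) (hy2 : y ≤ 2 * (δ : ℝ) + L2) (_hL1 : 0 ≤ L1) (hL2 : 0 ≤ L2)
    (k1 : 2 * √(n : ℝ) / 3 + 7.6 + 2 * Q / ((b + 1 : ℕ) : ℝ) ≤ 2 * κ)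
    (k2 : 2 * √(n : ℝ) / 3 + 14.6 + 4 * D ≤ 2 * κ)
    (k3 : 1 + L2 + 2 * Q / ((b + 1 : ℕ) : ℝ) ≤ 2 * κ) (k4 : 5 + L1 ≤ 2 * κ)
    (t1 : 2 * √(n : ℝ) / 3 + 3 + L1 < 2 * (τ + 1))
    (t2 : 2 * √(n : ℝ) / 3 + 10 + L2 + 4 * D < 2 * (τ + 1))
    (hroom : 2 * κ + τ + k ≤ N) (_g1 : 2 * τ + L1 ≤ 4 * N) (g2 : 2 * τ + L2 ≤ 2 * N) :
    ∃ x0 x1 x2 : ℕ, x0 + x1 + x2 + k = N ∧ (x2 : ℤ) - x0 = δ ∧
      Sgn (x0 • q4 b + (x1 • r4 (b + 1) + (x2 • q4 (b + 1) + (M + c • {μ})))) d := by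
  have hs0 := Real.sqrt_nonneg (n : ℝ)
  have hD0 : (0 : ℝ) ≤ D := Nat.cast_nonneg D
  have hnR : (n : ℝ) = 4 * N + c := by rw [h.hn]; push_cast; ring
  have hτR : (0 : ℝ) ≤ τ := Nat.cast_nonneg τ
  rcases le_or_gt ((τ : ℤ) + 1) (-δ) with h1 | h1
  · -- case A
    obtain ⟨x0, hx0⟩ : ∃ x0 : ℕ, (x0 : ℤ) = -δ := ⟨(-δ).toNat, by omega⟩
    have hxR : (x0 : ℝ) = -δ := by exact_mod_cast hx0
    have hxτ : (τ : ℝ) + 1 ≤ x0 := by
      have : ((τ : ℤ) + 1) ≤ x0 := by omega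
      exact_mod_cast this
    have habs : |δ| = x0 := by rw [hx0]; exact abs_of_nonpos (by omega)
    refine ⟨x0, N - k - x0, 0, by omega, by omega, ?_⟩
    rw [zero_smul, zero_add]
    refine caseA h R (by omega) (by omega) ?_ ?_
    · linarith
    · linarith
  rcases le_or_gt ((τ : ℤ) + 1) δ with h2 | h2
  · -- case B
    obtain ⟨x2, hx2⟩ : ∃ x2 : ℕ, (x2 : ℤ) = δ := ⟨δ.toNat, by omega⟩
    have hxR : (x2 : ℝ) = δ := by exact_mod_cast hx2
    have hxτ : (τ : ℝ) + 1 ≤ x2 := by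
      have : ((τ : ℤ) + 1) ≤ x2 := by omega
      exact_mod_cast this
    have habs : |δ| = x2 := by rw [hx2]; exact abs_of_nonneg (by omega)
    refine ⟨0, N - k - x2, x2, by omega, by omega, ?_⟩
    rw [zero_smul, zero_add]
    refine caseB h R (by omega) (by omega) ?_ ?_
    · linarith
    · linarith
  · -- case C
    obtain ⟨x0, hx0⟩ : ∃ x0 : ℕ, (x0 : ℤ) = κ + max (-δ) 0 := ⟨κ + (-δ).toNat, by omega⟩
    obtain ⟨x2, hx2⟩ : ∃ x2 : ℕ, (x2 : ℤ) = κ + max δ 0 := ⟨κ + δ.toNat, by omega⟩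
    have hx0R : (κ : ℝ) ≤ x0 := by
      have : (κ : ℤ) ≤ x0 := by omega
      exact_mod_cast this
    have hx2R : (κ : ℝ) ≤ x2 := by
      have : (κ : ℤ) ≤ x2 := by omega
      exact_mod_cast this
    have hdiff : (x2 : ℝ) - x0 = δ := by
      have : (x2 : ℤ) - x0 = δ := by omega
      exact_mod_cast this
    have hδ1 : (δ : ℝ) ≤ τ := by
      have : δ ≤ (τ : ℤ) := by omega
      exact_mod_cast this
    have hδ2 : -(τ : ℝ) ≤ δ := by
      have : -(τ : ℤ) ≤ δ := by omega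
      exact_mod_cast this
    refine ⟨x0, N - k - (x0 + x2), x2, by omega, by omega, ?_⟩
    refine caseC h R (by omega) hy ?_ ?_ ?_ ?_ ?_ ?_
    · linarith
    · linarith
    · linarith
    · linarith
    · linarith
    · linarith

end Pool.Agent.U810.NA
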