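import Pool.Agent.TH760.EN.EndE
import Pool.Agent.TH335.EN.EndS
import Pool.Agent.TH641.NW.Win2
import Pool.Agent.TH641.NW.Inst

/-! Windows for `a` points of almost equal multiplicities and `c` points of about half this
multiplicity: real slope `a + c / 4`. -/

namespace Pool.Agent.U810.NA

open Finset Pool.Agent.TH176.Nag Pool.Agent.TH603.Sur Pool.Agent.TH603.Cut Pool.Agent.TH641.NW
open Pool.Agent.TH760.EN Pool.Agent.TH335.EN

/-- the final triangle, emptiness -/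
theorem Emp_fin {ι : Type} [Fintype ι] (W : ι → ℕ) {c μ a s : ℕ} (ha : a = Fintype.card ι)
    (hs : s = ∑ i, W i) (hac : 1 ≤ 4 * a + c) (h : Emp (fun _ : Fin c => μ) (QQ c μ)) :
    Emp (Sum.elim W (fun _ : Fin c => μ)) {p : ℤ × ℤ | 0 ≤ p.1 ∧ 0 ≤ p.2 ∧
      4 * p.1 + (4 * (a : ℤ) + c) * p.2 < 4 * (s : ℤ) + 2 * (c : ℤ) * μ} := by
  obtain ⟨U, hU⟩ : ∃ U : Set (ℤ × ℤ), U = {p : ℤ × ℤ | 0 ≤ p.1 ∧ 0 ≤ p.2 ∧
      4 * p.1 + (4 * (a : ℤ) + c) * p.2 < 4 * (s : ℤ) + 2 * (c : ℤ) * μ} := ⟨_, rfl⟩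
  rw [← hU]
  have hfin : U.Finite := by
    obtain ⟨N, hN⟩ : ∃ N : ℤ, N = 4 * (s : ℤ) + 2 * (c : ℤ) * μ := ⟨_, rfl⟩
    apply Set.Finite.subset (Set.finite_Icc ((0, 0) : ℤ × ℤ) (N, N))
    rintro ⟨x, y⟩ hp
    rw [hU] at hp
    obtain ⟨h1, h2, h3⟩ := hp
    simp only at h1 h2 h3
    rw [← hN] at h3
    have h4 : (1 : ℤ) ≤ 4 * (a : ℤ) + c := by exact_mod_cast hac
    have h5 : y ≤ (4 * (a : ℤ) + c) * y := by nlinarith
    rw [Set.mem_Icc, Prod.mk_le_mk, Prod.mk_le_mk]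
    exact ⟨⟨h1, h2⟩, by linarith, by linarith⟩
  have e : U = {p | p ∈ U ∧ p.1 + (a : ℤ) * p.2 < (s : ℤ)} ∪
      {p | p ∈ U ∧ (s : ℤ) ≤ p.1 + (a : ℤ) * p.2} := by
    ext p
    constructor
    · intro hp
      rcases lt_or_ge (p.1 + (a : ℤ) * p.2) (s : ℤ) with h1 | h1
      · exact Or.inl ⟨hp, h1⟩
      · exact Or.inr ⟨hp, h1⟩
    · rintro (hp | hp) <;> exact hp.1
  have hpos : ∀ p ∈ U, 0 ≤ p.1 ∧ 0 ≤ p.2 := by
    intro p hp
    rw [hU] at hp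
    exact ⟨hp.1, hp.2.1⟩
  rw [e]
  refine Pool.Agent.TH698.NagT3.Emp_cut (hfin.subset fun p hp => hp.1)
    (hfin.subset fun p hp => hp.1) (fun p hp => hpos p hp.1)
    (fun p hp => hpos p hp.1) 1 a ?_ ?_ ?_
  · rintro p ⟨_, h1⟩ q ⟨_, h2⟩
    linarith
  · refine (Emp_Cl W).mono ?_
    rintro ⟨x, y⟩ ⟨hp, h4⟩
    have h12 := hpos _ hp
    simp only at h12 h4
    refine ⟨h12.1, h12.2, ?_⟩
    simp only
    rw [← ha, ← hs]
    have h5 : x + 1 + (a : ℤ) * y ≤ (s : ℤ) := by linarith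
    exact_mod_cast h5
  · refine h.comap 1 a 0 1 (-(s : ℤ)) 0 (by norm_num) ?_
    rintro ⟨x, y⟩ ⟨hp, h4⟩
    rw [hU] at hp
    obtain ⟨h1, h2, h3⟩ := hp
    simp only at h1 h2 h3 h4
    refine ⟨by simp only; linarith, by simp only; linarith, ?_⟩
    simp only
    linarith

/-- the final triangle, independence -/
theorem Sur_fin {ι : Type} [Fintype ι] (W : ι → ℕ) {c μ b a s : ℕ} (ha : a = Fintype.card ι)
    (hs : s = ∑ i, W i) (hW : ∀ i, b ≤ W i)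
    (hW' : ∀ i, W i ≤ b + 1) (hb1 : b ≤ 2 * μ + 1) (hb2 : 2 * μ ≤ b + 1)
    (h : Sur (fun _ : Fin c => μ) (QS c μ)) :
    Sur (Sum.elim W (fun _ : Fin c => μ)) {p : ℤ × ℤ | 0 ≤ p.1 ∧ 0 ≤ p.2 ∧
      4 * p.1 + (4 * (a : ℤ) + c) * p.2 + 4 ≤
        4 * (s : ℤ) + 2 * (c : ℤ) * μ + c} := by
  have hab : (a : ℤ) * b ≤ s := by
    have h1 : Fintype.card ι * b ≤ ∑ i, W i := by
      have : Fintype.card ι * b = ∑ _i : ι, b := by simp
      rw [this]
      exact sum_le_sum fun i _ => hW i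
    rw [← ha, ← hs] at h1
    exact_mod_cast h1
  have hrow : ∀ k ≤ b, ∑ i, (W i - k) + a * k = s := by
    intro k hk
    rw [ha, hs]
    have : Fintype.card ι * k = ∑ _i : ι, k := by simp
    rw [this, ← sum_add_distrib]
    exact sum_congr rfl fun i _ => Nat.sub_add_cancel (hk.trans (hW i))
  have h1 : Sur W {p : ℤ × ℤ | 0 ≤ p.1 ∧ 0 ≤ p.2 ∧ p.1 + (a : ℤ) * p.2 < s ∧ p.2 ≤ b} := by
    apply Sur_rows _ 0
    intro k j hj
    have hk : k ≤ b := by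
      by_contra hcon
      push Not at hcon
      have : ∑ i, (W i - k) = 0 := sum_eq_zero fun i _ => Nat.sub_eq_zero_of_le
        ((hW' i).trans hcon)
      omega
    have h2 := hrow k hk
    refine ⟨by simp, by simp, ?_, by simp only; omega⟩
    simp only [zero_add]
    have h3 : j + a * k < s := by omega
    exact_mod_cast h3
  have h2 : Sur (fun _ : Fin c => μ)
      {p : ℤ × ℤ | 0 ≤ p.2 ∧ (s : ℤ) ≤ p.1 + (a : ℤ) * p.2 ∧ p.2 ≤ b ∧
        4 * p.1 + (4 * (a : ℤ) + c) * p.2 + 4 ≤ 4 * (s : ℤ) + 2 * (c : ℤ) * μ + c} := by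
    refine h.comap 1 a 0 1 (-(s : ℤ)) 0 (by norm_num) ?_
    rintro ⟨i, y⟩ ⟨k1, k2, k3, k4⟩
    simp only at k1 k2 k3 k4
    refine ⟨(i + (s - a * y), y), ⟨k2, ?_, by simp only; omega, ?_⟩, ?_⟩
    · simp only
      linarith
    · simp only
      linarith
    · simp only [Prod.mk.injEq]
      exact ⟨by ring, by ring⟩
  have hpos : ∀ y : ℤ, 0 ≤ y → y ≤ b → 0 ≤ (s : ℤ) - a * y := by
    intro y h0 hy
    have h3 : (a : ℤ) * y ≤ a * b := mul_le_mul_of_nonneg_left hy (by positivity)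
    linarith
  have h3 := Sur_cut (fun p hp => ⟨hp.1, hp.2.1⟩) (fun p hp => ⟨?_, hp.1⟩) 1 a ?_ h1 h2
  · refine h3.mono ?_
    rintro p (⟨k1, k2, k3, k4⟩ | ⟨k1, k2, k3, k4⟩)
    · refine ⟨k1, k2, ?_⟩
      have hb3 : p.2 ≤ 2 * (μ : ℤ) + 1 := by
        have : (b : ℤ) ≤ 2 * μ + 1 := by exact_mod_cast hb1
        linarith
      have k5 : (c : ℤ) * p.2 ≤ c * (2 * μ + 1) := mul_le_mul_of_nonneg_left hb3 (by positivity)
      linarith
    · refine ⟨?_, k1, k4⟩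
      have k5 := hpos p.2 k1 k3
      linarith
  · have k5 := hpos p.2 hp.1 hp.2.2.1
    linarith [hp.2.1]
  · rintro p ⟨k1, k2, k3, k4⟩ p' ⟨k1', k2', k3', k4'⟩
    linarith

/-- the window of emptiness for a real slope -/
theorem Emp_nu {ι : Type} {w : ι → ℕ} {ν Z : ℝ} {σ : ℕ} (hν : 10 ≤ ν) (hσ : (σ : ℝ) + 1 ≤ ν)
    (hσ2 : ν ≤ σ + 2) (hfin : Emp w (Cl Z ν)) (hZ : ν * (ν / 2 + 3) ≤ Z) {d : ℕ}
    (h1 : √ν * (d + 3 / 2) + √ν / 3 + 9 / 8 + (ν - σ) < Z + ν / 2) : Emp w (TZ d) := by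
  classical
  obtain ⟨s, hsdef⟩ : ∃ s, s = √ν := ⟨_, rfl⟩
  have hs : s * s = ν := by rw [hsdef]; exact Real.mul_self_sqrt (by linarith)
  have hs3 : 3.16 ≤ s := by rw [hsdef]; exact Real.le_sqrt_of_sq_le (by norm_num; linarith)
  have hs0 : 0 < s := by linarith
  rw [← hsdef] at h1
  obtain ⟨e, he⟩ : ∃ e : ℝ, e = ν - σ := ⟨_, rfl⟩
  rw [← he] at h1
  have he1 : 1 ≤ e := by linarith
  have he2 : e ≤ 2 := by linarith
  obtain ⟨u, hu⟩ : ∃ u : ℝ, u = (Z + ν / 2 - s / 3 - 9 / 8 - e) / s - 3 / 2 := ⟨_, rfl⟩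
  have hus : s * (u + 3 / 2) = Z + ν / 2 - s / 3 - 9 / 8 - e := by
    rw [hu]; field_simp; ring
  have hdu : (d : ℝ) < u := by
    have : s * ((d : ℝ) + 3 / 2) < s * (u + 3 / 2) := by rw [hus]; linarith
    have := lt_of_mul_lt_mul_left this hs0.le
    linarith
  have hd0 : (0 : ℝ) ≤ d := Nat.cast_nonneg d
  have hu0 : 0 ≤ u := hd0.trans hdu.le
  have hceil : d + 1 ≤ ⌈u⌉₊ := by
    have : (d : ℝ) < (⌈u⌉₊ : ℝ) := lt_of_lt_of_le hdu (Nat.le_ceil u)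
    have : d < ⌈u⌉₊ := by exact_mod_cast this
    omega
  obtain ⟨d', hd'⟩ : ∃ d' : ℕ, d' + 1 = ⌈u⌉₊ := ⟨⌈u⌉₊ - 1, by omega⟩
  have hd1 : (d' : ℝ) < u := by
    have h2 := Nat.ceil_lt_add_one hu0
    rw [← hd'] at h2
    push_cast at h2
    linarith
  have hd2 : u ≤ d' + 1 := by
    have h2 := Nat.le_ceil u
    rw [← hd'] at h2
    push_cast at h2
    exact h2
  have hdd : d ≤ d' := by omega
  obtain ⟨J, hJ⟩ : ∃ J : ℕ, J = ⌊(d' : ℝ) / s⌋₊ := ⟨_, rfl⟩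
  have hJ1 : s * J ≤ d' := by
    have := Nat.floor_le (show 0 ≤ (d' : ℝ) / s by positivity)
    rw [← hJ, le_div_iff₀ hs0] at this
    linarith
  have hJ2 : (d' : ℝ) < s * (J + 1) := by
    have := Nat.lt_floor_add_one ((d' : ℝ) / s)
    rw [← hJ, div_lt_iff₀ hs0] at this
    linarith
  have hE1 : s * ((d' : ℝ) + 3 / 2) < Z + ν / 2 - s / 3 - 9 / 8 - e := by
    rw [← hus]; exact mul_lt_mul_of_pos_left (by linarith) hs0
  have hE2 : Z + ν / 2 - s / 3 - 9 / 8 - e ≤ s * ((d' : ℝ) + 5 / 2) := by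
    rw [← hus]; exact mul_le_mul_of_nonneg_left (by linarith) hs0.le
  have hJn : ν / 2 ≤ J + 1 := by
    have h2 : s * (d' : ℝ) < s * (s * (J + 1)) := mul_lt_mul_of_pos_left hJ2 hs0
    have h3 : s * (s * ((J : ℝ) + 1)) = ν * (J + 1) := by rw [← mul_assoc, hs]
    rw [h3] at h2
    have h4 : ν * (ν / 2) < ν * (J + 1) := by
      have h5 : (17 / 6) * s + 9 / 8 + 2 ≤ 7 / 2 * ν := by
        rw [← hs]; nlinarith
      linarith
    exact (lt_of_mul_lt_mul_left h4 (by linarith)).le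
  have eK : (3 * s) ^ 2 = 9 * ν := by rw [mul_pow, sq s, hs]; ring
  have hK0 : 0 ≤ 3 * s := by linarith
  have hmain : Emp w (TZ d') := by
    refine Emp_pl keyE (K := 3 * s) hK0 (n' := ν) (Z' := Z)
      (σ := σ) (J := J) (ρ := fun j => if j < J then Z - (ν - σ) - ν * j else
      if j = J then (3 * d' - 3 * s * J) ^ 2 / 18 + 11 / 18 * (3 * d' - 3 * s * J) + 17 / 8
        else 0) hσ ?_ ?_ ?_ ?_ hfin
    · intro x j B hB
      split_ifs with h2 h3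
      · have h3 : (j : ℝ) + 1 ≤ J := by exact_mod_cast h2
        have h4 := mul_le_mul_of_nonneg_left h3 hK0
        have h5 := up_row2 (x := x) (by linarith) (by linarith) hB
        rw [ell_row, eK] at h5
        linarith
      · subst h3
        exact up_top (by linarith) (by linarith) (by linarith) hB
      · have h3 : (J : ℝ) + 1 ≤ j := by exact_mod_cast (by omega : J + 1 ≤ j)
        have h4 := mul_le_mul_of_nonneg_left h3 hK0
        have h5 : B = ∅ := by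
          rw [Finset.eq_empty_iff_forall_notMem]
          exact fun c hc => U_empty (by linarith) (hB c hc)
        rw [h5]; simp
    · intro j hj
      simp only [if_pos hj]
      exact le_refl _
    · simp only [lt_irrefl, if_false, if_true]
      obtain ⟨Y, hY⟩ : ∃ Y : ℝ, Y = 3 * d' - 3 * s * J := ⟨_, rfl⟩
      have hY0 : 0 ≤ Y := by rw [hY]; linarith
      have hYK : Y < 3 * s := by rw [hY]; linarith
      rw [← hY]
      have e1 : ν * (J : ℝ) = s * d' - s * Y / 3 := by rw [hY, ← hs]; ring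
      have h7 : (3 * s - Y) ^ 2 = 9 * ν - 6 * s * Y + Y ^ 2 := by
        have : (3 * s - Y) ^ 2 = 9 * (s * s) - 6 * s * Y + Y ^ 2 := by ring
        rw [this, hs]
      have hz : (3 * s - Y) ^ 2 / 18 - 11 / 18 * (3 * s - Y) + 1 ≤ ν / 2 := by
        rcases le_total (18 / 11) (3 * s - Y) with hz | hz
        · have h5 : (3 * s - Y) ^ 2 ≤ (3 * s) ^ 2 := pow_le_pow_left₀ (by linarith) (by linarith) 2
          linarith
        · have : (3 * s - Y) ^ 2 ≤ (18 / 11) ^ 2 := pow_le_pow_left₀ (by linarith) hz 2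
          linarith
      have hσJ : (σ : ℝ) * J = ν * J - e * J := by rw [he]; ring
      rw [hσJ, e1]
      have h8 : (J : ℝ) + 1 ≤ e * (J + 1) := le_mul_of_one_le_left (by positivity) he1
      linarith
    · intro j hj
      simp only [if_neg (not_lt.2 hj.le), if_neg (show ¬ j = J by omega)]
      norm_num
  refine hmain.mono ?_
  rintro ⟨p, q⟩ ⟨hp, hq, hpq⟩
  exact ⟨hp, hq, hpq.trans (by exact_mod_cast hdd)⟩

/-- the window of independence for a real slope -/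
theorem Sur_nu {ι : Type} [Fintype ι] {w : ι → ℕ} {ν Z : ℝ} (hν : 10 ≤ ν)
    (hfin : Sur w (Op Z ν)) {d : ℕ}
    (h1 : Z + ν / 2 + √ν / 3 + 9 / 8 < √ν * (d + 3 / 2)) : Sur w (TZ d) := by
  obtain ⟨s, hsdef⟩ : ∃ s, s = √ν := ⟨_, rfl⟩
  have hs : s * s = ν := by rw [hsdef]; exact Real.mul_self_sqrt (by linarith)
  have hs3 : 3.1 ≤ s := by rw [hsdef]; exact Real.le_sqrt_of_sq_le (by norm_num; linarith)
  have hs0 : 0 < s := by linarith
  rw [← hsdef] at h1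
  obtain ⟨η, hη0, hη⟩ : ∃ η : ℝ, 0 < η ∧ η ≤ 0.3 ∧
      Z + ν / 2 + s / 3 + 9 / 8 + η * ((d + 3 / 2) / 3) ≤ s * (d + 3 / 2) := by
    have hd : 0 < ((d : ℝ) + 3 / 2) / 3 := by positivity
    refine ⟨min 0.3 ((s * (d + 3 / 2) - (Z + ν / 2 + s / 3 + 9 / 8)) / ((d + 3 / 2) / 3)), ?_,
      min_le_left _ _, ?_⟩
    · exact lt_min (by norm_num) (div_pos (by linarith) hd)
    · have h2 := mul_le_mul_of_nonneg_right (min_le_right (0.3 : ℝ)
        ((s * (d + 3 / 2) - (Z + ν / 2 + s / 3 + 9 / 8)) / ((d + 3 / 2) / 3))) hd.le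
      rw [div_mul_cancel₀ _ hd.ne'] at h2
      linarith
  obtain ⟨K, hKirr, hK1, hK2⟩ := exists_irrational_btwn (show 3 * s - η < 3 * s by linarith)
  have hK9 : 9 ≤ K := by linarith [hη.1]
  have hKs : K ^ 2 ≤ 9 * ν := by
    have : K ^ 2 ≤ (3 * s) ^ 2 := pow_le_pow_left₀ (by linarith) hK2.le 2
    have e : (3 * s) ^ 2 = 9 * ν := by rw [mul_pow, sq s, hs]; ring
    linarith
  have hmain : Z + ν / 2 + K / 9 + 9 / 8 ≤ K / 3 * ((d : ℝ) + 3 / 2) := by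
    have h3 : (3 * s - η) / 3 * ((d : ℝ) + 3 / 2) ≤ K / 3 * (d + 3 / 2) :=
      mul_le_mul_of_nonneg_right (by linarith) (by positivity)
    have h4 : (3 * s - η) / 3 * ((d : ℝ) + 3 / 2) = s * (d + 3 / 2) - η * ((d + 3 / 2) / 3) := by ring
    linarith [hη.2]
  refine Sur_pl keyS hK9 hKirr (n' := ν) (Z' := Z) ?_ hfin
  intro x j hj
  have hj0 : (0 : ℝ) ≤ j := Nat.cast_nonneg j
  have hY : 0 ≤ 3 * (d : ℝ) - K * j := by
    have h3 : K * j ≤ 3 * s * j := mul_le_mul_of_nonneg_right hK2.le hj0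
    have h4 : s * (3 * s * j) < s * (3 * d) := by
      have e : s * (3 * s * (j : ℝ)) = 3 * (ν * j) := by rw [← hs]; ring
      rw [e]
      have h6 : 3 / 2 * s ≤ ν / 2 + s / 3 + 9 / 8 := by rw [← hs]; nlinarith
      linarith
    have h5 := lt_of_mul_lt_mul_left h4 hs0.le
    linarith
  obtain ⟨B, hB1, hB2⟩ := low_row2 (x := x) hK9 hY
  refine ⟨B, hB1, ?_⟩
  rw [ell_row] at hB2
  have h7 : K ^ 2 / 9 * j ≤ ν * j := mul_le_mul_of_nonneg_right (by linarith) hj0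
  linarith

end Pool.Agent.U810.NA
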