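import Pool.Agent.U810.NA.Fin
import Pool.Agent.TH2.NU.Crit

/-! The windows in multiset form. -/

namespace Pool.Agent.U810.NA

open Finset Pool.Agent.TH176.Nag Pool.Agent.TH603.Sur Pool.Agent.TH603.Cut Pool.Agent.TH641.NW
open Pool.Agent.TH760.EN Pool.Agent.TH335.EN Pool.Agent.TH641.UM Pool.Agent.TH2.NU

/-- the square root of the slope -/
theorem sqrt_nu {n : ℕ} {ν : ℝ} (h : 4 * ν = n) : √ν = √(n : ℝ) / 2 := by
  have e : ν = (n : ℝ) / 4 := by linarith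
  rw [e, Real.sqrt_div' _ (by norm_num)]
  congr 1
  rw [show (4 : ℝ) = 2 ^ 2 by norm_num]
  exact Real.sqrt_sq (by norm_num)

/-- window of emptiness -/
theorem EmpWM {P : Multiset ℕ} {N c μ n d : ℕ} (hP : P.card = N) (hn : n = 4 * N + c)
    (hc : c = 0 ∨ c = 2 ∨ c = 3 ∨ c = 5) (hN : 36 ≤ N) (hE : HE c) (hb : N * (N + 10) ≤ P.sum)
    (hwin : √(n : ℝ) * (2 * d + 3) + 2 * √(n : ℝ) / 3 + 10 <
      4 * (P.sum : ℝ) + 2 * c * μ + 2 * N + c) :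
    EmpM (P + c • {μ}) (TZ d) := by
  have hlen : P.toList.length = N := by rw [Multiset.length_toList, hP]
  refine (EmpM_iff (w := Sum.elim (fun i : Fin P.toList.length => P.toList.get i)
    (fun _ : Fin c => μ)) (by rw [ms_sum, ms_toList, ms_fin]) _).2 ?_
  obtain ⟨W, hW⟩ : ∃ W : Fin P.toList.length → ℕ, W = fun i => P.toList.get i := ⟨_, rfl⟩
  have hWs : ∑ i, W i = P.sum := by
    rw [← ms_sum_val, hW, ms_toList]
  obtain ⟨s0, hs0⟩ : ∃ s0, s0 = P.sum := ⟨_, rfl⟩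
  rw [← hs0] at hWs hb hwin
  rw [← hW]
  have h1 := Emp_fin W (c := c) (μ := μ) (a := N) (s := s0)
    (by rw [Fintype.card_fin, hlen]) hWs.symm (by omega) (hE μ)
  obtain ⟨ν, hν⟩ : ∃ ν : ℝ, ν = N + (c : ℝ) / 4 := ⟨_, rfl⟩
  have hν4 : 4 * ν = n := by rw [hν, hn]; push_cast; ring
  have hsq := sqrt_nu hν4
  have hNR : (36 : ℝ) ≤ N := by exact_mod_cast hN
  have hc0 : (0 : ℝ) ≤ c := Nat.cast_nonneg c
  have hc5 : (c : ℝ) ≤ 5 := by rcases hc with rfl | rfl | rfl | rfl <;> norm_num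
  obtain ⟨σ, f1, f2, f3⟩ : ∃ σ : ℕ, (σ : ℝ) + 1 ≤ ν ∧ ν ≤ σ + 2 ∧
      4 * (ν - σ) ≤ 17 / 2 - (c : ℝ) / 2 := by
    have h1' : ((N - 1 : ℕ) : ℝ) = N - 1 := by
      rw [Nat.cast_sub (by omega)]
      push_cast
      ring
    rw [hν]
    rcases hc with rfl | rfl | rfl | rfl
    · refine ⟨N - 1, ?_⟩
      rw [h1']
      push_cast
      refine ⟨by linarith, by linarith, by linarith⟩
    · refine ⟨N - 1, ?_⟩
      rw [h1']
      push_cast
      refine ⟨by linarith, by linarith, by linarith⟩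
    · refine ⟨N - 1, ?_⟩
      rw [h1']
      push_cast
      refine ⟨by linarith, by linarith, by linarith⟩
    · refine ⟨N, ?_⟩
      push_cast
      refine ⟨by linarith, by linarith, by linarith⟩
  have hbR : (N : ℝ) * (N + 10) ≤ s0 := by exact_mod_cast hb
  have hμ0 : (0 : ℝ) ≤ c * μ := by positivity
  obtain ⟨Z, hZ⟩ : ∃ Z : ℝ, Z = s0 + c * μ / 2 + 3 / 4 := ⟨_, rfl⟩
  refine Emp_nu (ν := ν) (Z := Z) (σ := σ) (by rw [hν]; linarith) f1 f2 ?_ ?_ ?_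
  · refine h1.mono ?_
    rintro ⟨x, y⟩ ⟨h2, h3, h4⟩
    simp only at h2 h3 h4
    refine ⟨h2, h3, ?_⟩
    simp only
    have h5 : 4 * (x : ℝ) + (4 * N + c) * y + 4 ≤ 4 * s0 + 2 * c * μ + 3 := by
      have e : 4 * (ν * (y : ℝ)) = (4 * N + c) * y := by rw [hν]; ring
      rw [← e]
      rw [hZ] at h4
      linarith
    have h6 : ((4 * x + (4 * (N : ℤ) + c) * y + 4 : ℤ) : ℝ) ≤
        ((4 * (s0 : ℤ) + 2 * (c : ℤ) * μ + 3 : ℤ) : ℝ) := by
      push_cast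
      exact h5
    have h7 := Int.cast_le.1 h6
    linarith
  · rw [hZ]
    have h2 : ν * (ν / 2 + 3) ≤ (N : ℝ) * (N + 10) := by
      have h3 : ν ≤ N + 5 / 4 := by rw [hν]; linarith
      have h4 : 0 ≤ ν := by rw [hν]; positivity
      nlinarith
    linarith
  · rw [hsq, hZ]
    have h2 : ν / 2 = N / 2 + (c : ℝ) / 8 := by rw [hν]; ring
    linarith

/-- window of independence -/
theorem SurWM {P : Multiset ℕ} {N c μ n d b : ℕ} (hP : P.card = N) (hn : n = 4 * N + c)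
    (hc : c ≤ 5) (hN : 36 ≤ N) (hS : HS c) (hPb : ∀ v ∈ P, v = b ∨ v = b + 1)
    (hb1 : b ≤ 2 * μ + 1) (hb2 : 2 * μ ≤ b + 1)
    (hwin : 4 * (P.sum : ℝ) + 2 * c * μ + 2 * N + c + 2 * √(n : ℝ) / 3 + 3 <
      √(n : ℝ) * (2 * d + 3)) :
    SurM (P + c • {μ}) (TZ d) := by
  have hlen : P.toList.length = N := by rw [Multiset.length_toList, hP]
  refine (SurM_iff (w := Sum.elim (fun i : Fin P.toList.length => P.toList.get i)
    (fun _ : Fin c => μ)) (by rw [ms_sum, ms_toList, ms_fin]) _).2 ?_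
  obtain ⟨W, hW⟩ : ∃ W : Fin P.toList.length → ℕ, W = fun i => P.toList.get i := ⟨_, rfl⟩
  have hWs : ∑ i, W i = P.sum := by
    rw [← ms_sum_val, hW, ms_toList]
  obtain ⟨s0, hs0⟩ : ∃ s0, s0 = P.sum := ⟨_, rfl⟩
  have hWb : ∀ i, W i = b ∨ W i = b + 1 := by
    intro i
    rw [hW]
    exact hPb _ (Multiset.mem_toList.1 (List.get_mem _ _))
  rw [← hs0] at hWs hwin
  rw [← hW]
  have h1 := Sur_fin W (c := c) (μ := μ) (b := b) (a := N) (s := s0)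
    (by rw [Fintype.card_fin, hlen]) hWs.symm (fun i => by rcases hWb i with h | h <;> omega)
    (fun i => by rcases hWb i with h | h <;> omega) hb1 hb2 (hS μ)
  obtain ⟨ν, hν⟩ : ∃ ν : ℝ, ν = N + (c : ℝ) / 4 := ⟨_, rfl⟩
  have hν4 : 4 * ν = n := by rw [hν, hn]; push_cast; ring
  have hsq := sqrt_nu hν4
  have hNR : (36 : ℝ) ≤ N := by exact_mod_cast hN
  have hc0 : (0 : ℝ) ≤ c := Nat.cast_nonneg c
  have hc5 : (c : ℝ) ≤ 5 := by exact_mod_cast hc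
  obtain ⟨Z, hZ1, hZ2⟩ : ∃ Z : ℝ, s0 + c * μ / 2 + (c : ℝ) / 4 - 1 < Z ∧
      Z < √(n : ℝ) / 2 * (d + 3 / 2) - ν / 2 - √(n : ℝ) / 2 / 3 - 9 / 8 := by
    apply _root_.exists_between
    have h2 : ν / 2 = N / 2 + (c : ℝ) / 8 := by rw [hν]; ring
    rw [h2]
    linarith
  refine Sur_nu (ν := ν) (Z := Z) (by rw [hν]; linarith) ?_ ?_
  · refine h1.mono ?_
    rintro ⟨x, y⟩ ⟨h2, h3, h4⟩
    simp only at h2 h3 h4
    refine ⟨h2, h3, ?_⟩
    simp only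
    have h5 : 4 * (x : ℝ) + (4 * N + c) * y + 4 ≤ 4 * s0 + 2 * c * μ + c := by
      have h6 : ((4 * x + (4 * (N : ℤ) + c) * y + 4 : ℤ) : ℝ) ≤
        ((4 * (s0 : ℤ) + 2 * (c : ℤ) * μ + c : ℤ) : ℝ) := Int.cast_le.2 h4
      push_cast at h6
      exact h6
    have e : 4 * (ν * (y : ℝ)) = (4 * N + c) * y := by rw [hν]; ring
    rw [← e] at h5
    linarith
  · rw [hsq]
    linarith

end Pool.Agent.U810.NA
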